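import Pool.Agent.Helper67.DO.DefsC

/-!
# Module C2: one block of the smoothing construction
-/

namespace Pool.Agent.Helper67.DO

open scoped BigOperators Real
open MeasureTheory

noncomputable section

/-! ### constants -/

lemma c2_gam_pos {s0 : ℝ} (h : 0 < s0) (N : ℕ) : 0 < gamC s0 N := by
  unfold gamC; positivity

lemma c2_eps_pos {s0 : ℝ} (h : 0 < s0) (N : ℕ) : 0 < epsC s0 N := by
  unfold epsC; have := c2_gam_pos h N; positivity

lemma c2_d_pos (ns N : ℕ) : (0 : ℝ) < (dC ns N : ℝ) := by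
  unfold dC; positivity

lemma c2_sC_succ (s0 : ℝ) (N : ℕ) : sC s0 (N + 1) = sC s0 N - gamC s0 N := by
  unfold sC gamC
  rw [pow_succ, pow_succ (2 : ℝ) N]
  field_simp
  ring

lemma c2_sC_pos {s0 : ℝ} (h : 0 < s0) (N : ℕ) : 0 < sC s0 N := by
  unfold sC; positivity

lemma c2_del_mul {s0 : ℝ} (ns N : ℕ) : delC s0 ns N * dC ns N = epsC s0 N := by
  unfold delC
  rw [div_mul_cancel₀ _ (c2_d_pos ns N).ne']

lemma c2_del_pos {s0 : ℝ} (h : 0 < s0) (ns N : ℕ) : 0 < delC s0 ns N := by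
  unfold delC
  exact div_pos (c2_eps_pos h N) (c2_d_pos ns N)

lemma c2_card (ns N : ℕ) : ((frC ns N).card : ℝ) = (dC ns N : ℝ) := by
  unfold frC dC
  rw [Int.card_Icc]
  congr 1
  omega

/-! ### trigonometric functions on strips -/

lemma c2_exp_I (w : ℂ) : ‖Complex.exp (w * Complex.I)‖ ≤ Real.exp |w.im| := by
  rw [Complex.norm_exp]
  apply Real.exp_le_exp.2
  have : (w * Complex.I).re = -w.im := by simp
  rw [this]
  exact neg_le_abs _

lemma c2_exp_negI (w : ℂ) : ‖Complex.exp (-w * Complex.I)‖ ≤ Real.exp |w.im| := by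
  have := c2_exp_I (-w)
  simpa using this

lemma c2_cos (w : ℂ) : ‖Complex.cos w‖ ≤ Real.exp |w.im| := by
  unfold Complex.cos
  rw [norm_div]
  have h1 := norm_add_le (Complex.exp (w * Complex.I)) (Complex.exp (-w * Complex.I))
  have h2 := c2_exp_I w
  have h3 := c2_exp_negI w
  have h4 : ‖(2 : ℂ)‖ = 2 := by simp
  rw [h4, div_le_iff₀ (by norm_num)]
  linarith

lemma c2_sin (w : ℂ) : ‖Complex.sin w‖ ≤ Real.exp |w.im| := by
  unfold Complex.sin
  rw [norm_div, norm_mul, Complex.norm_I, mul_one]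
  have h1 := norm_sub_le (Complex.exp (-w * Complex.I)) (Complex.exp (w * Complex.I))
  have h2 := c2_exp_I w
  have h3 := c2_exp_negI w
  have h4 : ‖(2 : ℂ)‖ = 2 := by simp
  rw [h4, div_le_iff₀ (by norm_num)]
  linarith

/-- frequency bound on a strip -/
lemma c2_strip {s : ℝ} {j : ℤ} {z : ℂ} (hz : z ∈ St s) :
    Real.exp (-(2 * π * s * |(j : ℝ)|)) * Real.exp |(2 * π * j * z : ℂ).im| ≤ 1 := by
  rw [← Real.exp_add]
  have him : (2 * π * j * z : ℂ).im = 2 * π * j * z.im := by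
    have : (2 * π * j * z : ℂ) = ((2 * π * j : ℝ) : ℂ) * z := by push_cast; ring
    rw [this, Complex.re_ofReal_mul |> fun _ => Complex.im_ofReal_mul _ _]
  rw [him]
  have h1 : |2 * π * (j : ℝ) * z.im| = 2 * π * |(j : ℝ)| * |z.im| := by
    rw [abs_mul, abs_mul, abs_of_pos (by positivity : (0 : ℝ) < 2 * π)]
  rw [h1]
  have h2 : |z.im| < s := hz
  have h3 : 2 * π * |(j : ℝ)| * |z.im| ≤ 2 * π * |(j : ℝ)| * s :=
    mul_le_mul_of_nonneg_left h2.le (by positivity)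
  have h4 : -(2 * π * s * |(j : ℝ)|) + 2 * π * |(j : ℝ)| * |z.im| ≤ 0 := by nlinarith
  calc Real.exp _ ≤ Real.exp 0 := Real.exp_le_exp.2 h4
    _ = 1 := Real.exp_zero

/-! ### the block functions -/

lemma c2_phi_hasDeriv (s0 : ℝ) (N : ℕ) (j : ℤ) (z : ℂ) :
    HasDerivAt (phiC s0 N j)
      ((Real.exp (-(2 * π * sC s0 N * |(j : ℝ)|)) : ℂ) *
        (if j = 0 then 0 else if 0 < j then -Complex.sin (2 * π * j * z) * (2 * π * j)
          else Complex.cos (2 * π * j * z) * (2 * π * j))) z := by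
  have hl : HasDerivAt (fun z : ℂ => 2 * π * j * z) (2 * π * j) z := by
    simpa using (hasDerivAt_id z).const_mul (2 * π * j : ℂ)
  unfold phiC
  by_cases h0 : j = 0
  · simp only [h0, if_true]
    simpa using (hasDerivAt_const z _)
  · by_cases h1 : 0 < j
    · simp only [h0, h1, if_true, if_false]
      exact (((Complex.hasDerivAt_cos _).comp z hl)).const_mul _
    · simp only [h0, h1, if_false]
      exact (((Complex.hasDerivAt_sin _).comp z hl)).const_mul _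

lemma c2_phi_norm {s0 : ℝ} (N : ℕ) (j : ℤ) {z : ℂ} (hz : z ∈ St (sC s0 N)) :
    ‖phiC s0 N j z‖ ≤ 1 := by
  unfold phiC
  rw [norm_mul, Complex.norm_real, Real.norm_eq_abs, abs_of_pos (Real.exp_pos _)]
  have hs := c2_strip (j := j) hz
  by_cases h0 : j = 0
  · simp [h0]
  · by_cases h1 : 0 < j
    · simp only [h0, h1, if_true, if_false]
      exact (mul_le_mul_of_nonneg_left (c2_cos _) (Real.exp_pos _).le).trans hs
    · simp only [h0, h1, if_false]
      exact (mul_le_mul_of_nonneg_left (c2_sin _) (Real.exp_pos _).le).trans hs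

lemma c2_j_le {ns N : ℕ} {j : ℤ} (hj : j ∈ frC ns N) : |(j : ℝ)| ≤ nC ns N := by
  unfold frC at hj
  rw [Finset.mem_Icc] at hj
  rw [abs_le]
  constructor
  · have := hj.1
    have h2 : ((-(nC ns N : ℤ) : ℤ) : ℝ) ≤ (j : ℝ) := by exact_mod_cast this
    simpa using h2
  · exact_mod_cast hj.2

lemma c2_phi_deriv {s0 : ℝ} {ns : ℕ} (N : ℕ) (j : ℤ) (hj : j ∈ frC ns N) {z : ℂ}
    (hz : z ∈ St (sC s0 N)) : ‖deriv (phiC s0 N j) z‖ ≤ 2 * π * nC ns N := by
  rw [(c2_phi_hasDeriv s0 N j z).deriv]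
  rw [norm_mul, Complex.norm_real, Real.norm_eq_abs, abs_of_pos (Real.exp_pos _)]
  have hs := c2_strip (j := j) hz
  have hj' := c2_j_le hj
  have hn : ‖(2 * π * j : ℂ)‖ = 2 * π * |(j : ℝ)| := by
    have : (2 * π * j : ℂ) = ((2 * π * j : ℝ) : ℂ) := by push_cast; ring
    rw [this, Complex.norm_real, Real.norm_eq_abs, abs_mul,
      abs_of_pos (by positivity : (0 : ℝ) < 2 * π)]
  have hb : 2 * π * |(j : ℝ)| ≤ 2 * π * nC ns N := mul_le_mul_of_nonneg_left hj' (by positivity)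
  have h0' : (0 : ℝ) ≤ 2 * π * |(j : ℝ)| := by positivity
  by_cases h0 : j = 0
  · simp only [h0, if_true, norm_zero, mul_zero]
    positivity
  · have key : ∀ c : ℂ, ‖c‖ ≤ Real.exp |(2 * π * j * z : ℂ).im| →
        Real.exp (-(2 * π * sC s0 N * |(j : ℝ)|)) * ‖c * (2 * π * j)‖ ≤ 2 * π * nC ns N := by
      intro c hc
      rw [norm_mul, hn]
      have h1 : Real.exp (-(2 * π * sC s0 N * |(j : ℝ)|)) * ‖c‖ ≤ 1 :=
        (mul_le_mul_of_nonneg_left hc (Real.exp_pos _).le).trans hs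
      calc _ = (Real.exp (-(2 * π * sC s0 N * |(j : ℝ)|)) * ‖c‖) * (2 * π * |(j : ℝ)|) := by ring
        _ ≤ 1 * (2 * π * |(j : ℝ)|) := mul_le_mul_of_nonneg_right h1 h0'
        _ ≤ _ := by rw [one_mul]; exact hb
    by_cases h1 : 0 < j
    · simp only [h0, h1, if_true, if_false]
      exact key _ (by rw [norm_neg]; exact c2_sin _)
    · simp only [h0, h1, if_false]
      exact key _ (c2_cos _)

lemma c2_phi_per (s0 : ℝ) (N : ℕ) (j : ℤ) (z : ℂ) : phiC s0 N j (z + 1) = phiC s0 N j z := by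
  unfold phiC
  have h : (2 * π * j * (z + 1) : ℂ) = 2 * π * j * z + j * (2 * π) := by ring
  rw [h, Complex.cos_add_int_mul_two_pi, Complex.sin_add_int_mul_two_pi]

lemma c2_phi_real (s0 : ℝ) (N : ℕ) (j : ℤ) (x : ℝ) : (phiC s0 N j x).im = 0 := by
  unfold phiC
  have h : (2 * π * j * (x : ℂ) : ℂ) = ((2 * π * j * x : ℝ) : ℂ) := by push_cast; ring
  rw [h, ← Complex.ofReal_cos, ← Complex.ofReal_sin]
  by_cases h0 : j = 0
  · simp only [h0, if_true]
    rw [mul_one, Complex.ofReal_im]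
  · by_cases h1 : 0 < j
    · simp only [h0, h1, if_true, if_false]
      rw [← Complex.ofReal_mul, Complex.ofReal_im]
    · simp only [h0, h1, if_false]
      rw [← Complex.ofReal_mul, Complex.ofReal_im]

/-! ### the perturbation `b` -/

lemma c2_b_hasDeriv (s0 : ℝ) (ns N : ℕ) (th : ℕ × ℤ → ℝ) (z : ℂ) :
    HasDerivAt (bC s0 ns N th)
      ((delC s0 ns N : ℂ) * ∑ j ∈ frC ns N, (th (N, j) : ℂ) * deriv (phiC s0 N j) z) z := by
  unfold bC
  apply HasDerivAt.const_mul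
  apply HasDerivAt.fun_sum
  intro j _
  exact ((c2_phi_hasDeriv s0 N j z).differentiableAt.hasDerivAt).const_mul _

lemma c2_b_sum {s0 : ℝ} (hs : 0 < s0) (ns N : ℕ) {th : ℕ × ℤ → ℝ} (hth : th ∈ Cu)
    (f : ℤ → ℂ) (B : ℝ) (hB : ∀ j ∈ frC ns N, ‖f j‖ ≤ B) :
    ‖(delC s0 ns N : ℂ) * ∑ j ∈ frC ns N, (th (N, j) : ℂ) * f j‖ ≤ B * epsC s0 N := by
  rw [norm_mul, Complex.norm_real, Real.norm_eq_abs, abs_of_pos (c2_del_pos hs ns N)]
  have h1 : ‖∑ j ∈ frC ns N, (th (N, j) : ℂ) * f j‖ ≤ ∑ j ∈ frC ns N, B := by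
    apply norm_sum_le_of_le
    intro j hj
    rw [norm_mul, Complex.norm_real, Real.norm_eq_abs]
    have h2 : |th (N, j)| ≤ 1 := hth (N, j)
    calc |th (N, j)| * ‖f j‖ ≤ 1 * ‖f j‖ := mul_le_mul_of_nonneg_right h2 (norm_nonneg _)
      _ ≤ B := by rw [one_mul]; exact hB j hj
  rw [Finset.sum_const, nsmul_eq_mul, c2_card] at h1
  calc _ ≤ delC s0 ns N * ((dC ns N : ℝ) * B) :=
        mul_le_mul_of_nonneg_left h1 (c2_del_pos hs ns N).le
    _ = (delC s0 ns N * dC ns N) * B := by ring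
    _ = B * epsC s0 N := by rw [c2_del_mul]; ring

lemma c2_b_norm {s0 : ℝ} (hs : 0 < s0) (ns N : ℕ) {th : ℕ × ℤ → ℝ} (hth : th ∈ Cu) {z : ℂ}
    (hz : z ∈ St (sC s0 N)) : ‖bC s0 ns N th z‖ ≤ epsC s0 N := by
  have := c2_b_sum hs ns N hth (fun j => phiC s0 N j z) 1 (fun j _ => c2_phi_norm N j hz)
  rw [one_mul] at this
  exact this

lemma c2_b_deriv {s0 : ℝ} (hs : 0 < s0) (ns N : ℕ) {th : ℕ × ℤ → ℝ} (hth : th ∈ Cu) {z : ℂ}
    (hz : z ∈ St (sC s0 N)) : ‖deriv (bC s0 ns N th) z‖ ≤ 2 * π * nC ns N * epsC s0 N := by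
  rw [(c2_b_hasDeriv s0 ns N th z).deriv]
  exact c2_b_sum hs ns N hth (fun j => deriv (phiC s0 N j) z) _ (fun j hj => c2_phi_deriv N j hj hz)

lemma c2_b_diff (s0 : ℝ) (ns N : ℕ) (th : ℕ × ℤ → ℝ) : Differentiable ℂ (bC s0 ns N th) :=
  fun z => (c2_b_hasDeriv s0 ns N th z).differentiableAt

lemma c2_b_cauchy {s0 : ℝ} (hs : 0 < s0) (ns N : ℕ) {th : ℕ × ℤ → ℝ} (hth : th ∈ Cu) {z : ℂ}
    (hz : z ∈ St (sC s0 N - gamC s0 N / 4)) : ‖deriv (bC s0 ns N th) z‖ ≤ 1 / 32 := by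
  have hg := c2_gam_pos hs N
  have h := Complex.norm_deriv_le_of_forall_mem_sphere_norm_le (c := z) (R := gamC s0 N / 4)
    (C := epsC s0 N) (f := bC s0 ns N th) (by positivity)
    (c2_b_diff s0 ns N th).diffContOnCl (fun w hw => ?_)
  · have he : epsC s0 N / (gamC s0 N / 4) = 1 / 32 := by
      unfold epsC
      field_simp
      norm_num
    rwa [he] at h
  · apply c2_b_norm hs ns N hth
    have h1 : ‖w - z‖ = gamC s0 N / 4 := by simpa [dist_eq_norm] using hw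
    have h2 : |(w - z).im| ≤ ‖w - z‖ := Complex.abs_im_le_norm _
    have h3 : |z.im| < sC s0 N - gamC s0 N / 4 := hz
    show |w.im| < sC s0 N
    have h4 : w.im = (w - z).im + z.im := by simp
    rw [h4]
    have := abs_add_le (w - z).im z.im
    linarith

lemma c2_St_convex (s : ℝ) : Convex ℝ (St s) := by
  have : St s = Complex.imLm ⁻¹' (Set.Ioo (-s) s) := by
    ext z
    simp [St, abs_lt]
  rw [this]
  exact (convex_Ioo (-s) s).linear_preimage _

lemma c2_St_open (s : ℝ) : IsOpen (St s) :=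
  isOpen_lt (continuous_abs.comp Complex.continuous_im) continuous_const

lemma c2_b_lip {s0 : ℝ} (hs : 0 < s0) (ns N : ℕ) {th : ℕ × ℤ → ℝ} (hth : th ∈ Cu) {z z' : ℂ}
    (hz : z ∈ St (sC s0 N - gamC s0 N / 4)) (hz' : z' ∈ St (sC s0 N - gamC s0 N / 4)) :
    ‖bC s0 ns N th z' - bC s0 ns N th z‖ ≤ 1 / 32 * ‖z' - z‖ :=
  Convex.norm_image_sub_le_of_norm_deriv_le (fun x _ => (c2_b_diff s0 ns N th) x)
    (fun _ hx => c2_b_cauchy hs ns N hth hx) (c2_St_convex _) hz hz'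

/-- expansion of `C_N` -/
lemma c2_CC_exp {s0 : ℝ} (hs : 0 < s0) (ns N : ℕ) {th : ℕ × ℤ → ℝ} (hth : th ∈ Cu) {z z' : ℂ}
    (hz : z ∈ St (sC s0 N - gamC s0 N / 4)) (hz' : z' ∈ St (sC s0 N - gamC s0 N / 4)) :
    ‖z' - z‖ ≤ 32 / 31 * ‖CC s0 ns N th z' - CC s0 ns N th z‖ := by
  have h1 := c2_b_lip hs ns N hth hz hz'
  have h2 : z' - z = (CC s0 ns N th z' - CC s0 ns N th z) -
      (bC s0 ns N th z' - bC s0 ns N th z) := by
    unfold CC; ring
  have h3 := norm_sub_le (CC s0 ns N th z' - CC s0 ns N th z)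
    (bC s0 ns N th z' - bC s0 ns N th z)
  rw [← h2] at h3
  linarith

lemma c2_near {s0 : ℝ} (hs : 0 < s0) (N : ℕ) {z w : ℂ} (hw : w ∈ St (sC s0 (N + 1)))
    (h : ‖z - w‖ ≤ epsC s0 N) : z ∈ St (sC s0 N - gamC s0 N / 2) := by
  have hg := c2_gam_pos hs N
  have h1 : |w.im| < sC s0 N - gamC s0 N := by
    have : |w.im| < sC s0 (N + 1) := hw
    rwa [c2_sC_succ] at this
  have h2 : |(z - w).im| ≤ ‖z - w‖ := Complex.abs_im_le_norm _
  have h3 : z.im = (z - w).im + w.im := by simp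
  show |z.im| < _
  rw [h3]
  have h4 := abs_add_le (z - w).im w.im
  have h5 : epsC s0 N = gamC s0 N / 128 := rfl
  linarith

lemma c2_St_mono {s t : ℝ} (h : s ≤ t) : St s ⊆ St t := fun _ hz => lt_of_lt_of_le hz h

lemma c2_near' {s0 : ℝ} (hs : 0 < s0) (N : ℕ) {z w : ℂ} (hw : w ∈ St (sC s0 (N + 1)))
    (h : ‖z - w‖ ≤ epsC s0 N) : z ∈ St (sC s0 N - gamC s0 N / 4) :=
  c2_St_mono (by have := c2_gam_pos hs N; linarith) (c2_near hs N hw h)

lemma c2_near'' {s0 : ℝ} (hs : 0 < s0) (N : ℕ) {z w : ℂ} (hw : w ∈ St (sC s0 (N + 1)))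
    (h : ‖z - w‖ ≤ epsC s0 N) : z ∈ St (sC s0 N) :=
  c2_St_mono (by have := c2_gam_pos hs N; linarith) (c2_near hs N hw h)

/-- existence of the inverse -/
lemma c2_exists {s0 : ℝ} (hs : 0 < s0) (ns N : ℕ) {th : ℕ × ℤ → ℝ} (hth : th ∈ Cu) {w : ℂ}
    (hw : w ∈ St (sC s0 (N + 1))) : ∃ z : ℂ, ‖z - w‖ ≤ epsC s0 N ∧ CC s0 ns N th z = w := by
  have he := c2_eps_pos hs N
  have hmem : ∀ z ∈ Metric.closedBall w (epsC s0 N), ‖z - w‖ ≤ epsC s0 N := fun z hz => by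
    simpa [dist_eq_norm] using hz
  have hmaps : Set.MapsTo (fun z => w - bC s0 ns N th z) (Metric.closedBall w (epsC s0 N))
      (Metric.closedBall w (epsC s0 N)) := by
    intro z hz
    have h1 := c2_b_norm hs ns N hth (c2_near'' hs N hw (hmem z hz))
    show dist (w - bC s0 ns N th z) w ≤ _
    rw [dist_eq_norm]
    simpa using h1
  have hcontr : ContractingWith (1 / 32 : NNReal)
      (hmaps.restrict (fun z => w - bC s0 ns N th z) (Metric.closedBall w (epsC s0 N))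
        (Metric.closedBall w (epsC s0 N))) := by
    refine ⟨by
      rw [← NNReal.coe_lt_coe]
      norm_num, ?_⟩
    apply LipschitzWith.of_dist_le_mul
    rintro ⟨z, hz⟩ ⟨z', hz'⟩
    have h1 := c2_b_lip hs ns N hth (c2_near' hs N hw (hmem z hz))
      (c2_near' hs N hw (hmem z' hz'))
    show dist (w - bC s0 ns N th z) (w - bC s0 ns N th z') ≤ ((1 / 32 : NNReal) : ℝ) * dist z z'
    rw [dist_eq_norm, dist_eq_norm]
    have h2 : w - bC s0 ns N th z - (w - bC s0 ns N th z') =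
      bC s0 ns N th z' - bC s0 ns N th z := by ring
    rw [h2, norm_sub_rev z z']
    simpa using h1
  obtain ⟨z, hz, hfix, -⟩ := ContractingWith.exists_fixedPoint'
    (Metric.isClosed_closedBall.isComplete) hmaps hcontr
    (Metric.mem_closedBall_self he.le) (edist_ne_top _ _)
  refine ⟨z, hmem z hz, ?_⟩
  have hfix' : w - bC s0 ns N th z = z := hfix
  unfold CC
  linear_combination -hfix'

lemma c2_inv_spec {s0 : ℝ} (hs : 0 < s0) (ns N : ℕ) {th : ℕ × ℤ → ℝ} (hth : th ∈ Cu) {w : ℂ}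
    (hw : w ∈ St (sC s0 (N + 1))) : ‖CinvC s0 ns N th w - w‖ ≤ epsC s0 N ∧
      CC s0 ns N th (CinvC s0 ns N th w) = w :=
  Classical.epsilon_spec (p := fun z => ‖z - w‖ ≤ epsC s0 N ∧ CC s0 ns N th z = w)
    (c2_exists hs ns N hth hw)

lemma c2_inv_unique {s0 : ℝ} (hs : 0 < s0) (ns N : ℕ) {th : ℕ × ℤ → ℝ} (hth : th ∈ Cu) {w z : ℂ}
    (hw : w ∈ St (sC s0 (N + 1))) (h1 : ‖z - w‖ ≤ epsC s0 N) (h2 : CC s0 ns N th z = w) :
    CinvC s0 ns N th w = z := by
  obtain ⟨h3, h4⟩ := c2_inv_spec hs ns N hth hw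
  have h5 := c2_CC_exp hs ns N hth (c2_near' hs N hw h1) (c2_near' hs N hw h3)
  rw [h4, h2, sub_self, norm_zero, mul_zero] at h5
  have h6 := norm_le_zero_iff.1 h5
  exact sub_eq_zero.1 h6

lemma c2_CC_per (s0 : ℝ) (ns N : ℕ) (th : ℕ × ℤ → ℝ) (z : ℂ) :
    CC s0 ns N th (z + 1) = CC s0 ns N th z + 1 := by
  have : bC s0 ns N th (z + 1) = bC s0 ns N th z := by
    unfold bC
    congr 1
    exact Finset.sum_congr rfl fun j _ => by rw [c2_phi_per]
  unfold CC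
  rw [this]
  ring

lemma c2_b_real (s0 : ℝ) (ns N : ℕ) (th : ℕ × ℤ → ℝ) (x : ℝ) : (bC s0 ns N th x).im = 0 := by
  unfold bC
  rw [Complex.im_ofReal_mul, Complex.im_sum]
  rw [Finset.sum_eq_zero, mul_zero]
  intro j _
  rw [Complex.im_ofReal_mul, c2_phi_real, mul_zero]

lemma c2_St_add_one {s : ℝ} {w : ℂ} (hw : w ∈ St s) : w + 1 ∈ St s := by
  have h : (w + 1).im = w.im := by simp
  show |(w + 1).im| < s
  rw [h]
  exact hw

lemma c2_inv_lip {s0 : ℝ} (hs : 0 < s0) (ns N : ℕ) {th : ℕ × ℤ → ℝ} (hth : th ∈ Cu) {w w' : ℂ}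
    (hw : w ∈ St (sC s0 (N + 1))) (hw' : w' ∈ St (sC s0 (N + 1))) :
    ‖CinvC s0 ns N th w' - CinvC s0 ns N th w‖ ≤ 32 / 31 * ‖w' - w‖ := by
  obtain ⟨h3, h4⟩ := c2_inv_spec hs ns N hth hw
  obtain ⟨h5, h6⟩ := c2_inv_spec hs ns N hth hw'
  have := c2_CC_exp hs ns N hth (c2_near' hs N hw h3) (c2_near' hs N hw' h5)
  rwa [h4, h6] at this

lemma c2_inv_hasDeriv {s0 : ℝ} (hs : 0 < s0) (ns N : ℕ) {th : ℕ × ℤ → ℝ} (hth : th ∈ Cu) {w : ℂ}
    (hw : w ∈ St (sC s0 (N + 1))) : HasDerivAt (CinvC s0 ns N th)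
      (1 + deriv (bC s0 ns N th) (CinvC s0 ns N th w))⁻¹ w := by
  have hopen : St (sC s0 (N + 1)) ∈ nhds w := (c2_St_open _).mem_nhds hw
  have hcont : ContinuousAt (CinvC s0 ns N th) w := by
    rw [Metric.continuousAt_iff]
    intro ε hε
    obtain ⟨δ, hδ, hsub⟩ := Metric.mem_nhds_iff.1 hopen
    refine ⟨min δ (ε / 2), lt_min hδ (by positivity), fun {w'} hw' => ?_⟩
    have h1 : w' ∈ St (sC s0 (N + 1)) := hsub (lt_of_lt_of_le hw' (min_le_left _ _))
    have h2 := c2_inv_lip hs ns N hth hw h1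
    rw [dist_eq_norm] at hw' ⊢
    have h3 : ‖w' - w‖ < ε / 2 := lt_of_lt_of_le hw' (min_le_right _ _)
    linarith [norm_nonneg (w' - w)]
  obtain ⟨h3, h4⟩ := c2_inv_spec hs ns N hth hw
  refine HasDerivAt.of_local_left_inverse hcont ?_ ?_ ?_ (f := CC s0 ns N th)
  · exact (hasDerivAt_id _).add ((c2_b_diff s0 ns N th) _).hasDerivAt
  · intro h0
    have h5 := c2_b_cauchy hs ns N hth (c2_near' hs N hw h3)
    have h6 : deriv (bC s0 ns N th) (CinvC s0 ns N th w) = -1 := by linear_combination h0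
    rw [h6, norm_neg, norm_one] at h5
    norm_num at h5
  · filter_upwards [hopen] with w' hw'
    exact (c2_inv_spec hs ns N hth hw').2

theorem st_C2 : ST_C2 := by
  intro s0 ns N hs _ _ th hth
  refine ⟨c2_b_diff s0 ns N th, fun z => ?_, c2_b_real s0 ns N th,
    fun z hz => ⟨c2_b_norm hs ns N hth hz, c2_b_deriv hs ns N hth hz⟩,
    fun j hj z hz => ⟨c2_phi_norm N j hz, c2_phi_deriv N j hj hz⟩,
    fun z hz => c2_b_cauchy hs ns N hth hz, fun w hw => ?_, fun w hw =>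
      (c2_inv_hasDeriv hs ns N hth hw).differentiableAt.differentiableWithinAt, fun x => ?_⟩
  · have := c2_CC_per s0 ns N th z
    unfold CC at this
    linear_combination this
  · obtain ⟨h3, h4⟩ := c2_inv_spec hs ns N hth hw
    refine ⟨c2_near hs N hw h3, h3, h4, ?_⟩
    apply c2_inv_unique hs ns N hth (c2_St_add_one hw)
    · have : CinvC s0 ns N th w + 1 - (w + 1) = CinvC s0 ns N th w - w := by ring
      rw [this]
      exact h3
    · rw [c2_CC_per, h4]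
  · have hx : (x : ℂ) ∈ St (sC s0 N) := by
      show |(x : ℂ).im| < _
      simpa using c2_sC_pos hs N
    have him : (CC s0 ns N th x).im = 0 := by
      unfold CC
      rw [Complex.add_im, c2_b_real, Complex.ofReal_im, add_zero]
    apply c2_inv_unique hs ns N hth
    · show |(CC s0 ns N th x).im| < _
      rw [him]
      simpa using c2_sC_pos hs (N + 1)
    · have : (x : ℂ) - CC s0 ns N th x = -bC s0 ns N th x := by
        unfold CC; ring
      rw [this, norm_neg]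
      exact c2_b_norm hs ns N hth hx
    · rfl

end

end Pool.Agent.Helper67.DO
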