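import Pool.Agent.Helper67.DO.StmtsT

/-!
# Module T6: the `k_ω` lemma
-/

namespace Pool.Agent.Helper67.DO

open scoped BigOperators Real

noncomputable section

/-- tube lemma for finite products -/
lemma t6_tube {X : Type} [TopologicalSpace X] : ∀ (p : ℕ) (C : Fin p → Set X),
    (∀ i, IsCompact (C i)) → ∀ Ω : Set (Fin p → X), IsOpen Ω →
    (∀ g : Fin p → X, (∀ i, g i ∈ C i) → g ∈ Ω) →
    ∃ U : Fin p → Set X, (∀ i, IsOpen (U i)) ∧ (∀ i, C i ⊆ U i) ∧
      ∀ g : Fin p → X, (∀ i, g i ∈ U i) → g ∈ Ω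
  | 0, C, _, Ω, _, h => ⟨fun i => i.elim0, fun i => i.elim0, fun i => i.elim0,
      fun g _ => h g fun i => i.elim0⟩
  | p + 1, C, hC, Ω, hΩ, h => by
    have hφ : Continuous (fun x : X × (Fin p → X) => (Fin.cons x.1 x.2 : Fin (p + 1) → X)) := by
      refine continuous_pi fun i => ?_
      refine Fin.cases ?_ (fun j => ?_) i
      · exact continuous_fst
      · exact (continuous_apply j).comp continuous_snd
    have hT : IsCompact {g : Fin p → X | ∀ i, g i ∈ C i.succ} := isCompact_pi_infinite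
      (fun i => hC i.succ)
    obtain ⟨u, v, hu, hv, hCu, hTv, huv⟩ := generalized_tube_lemma (hC 0) hT
      (hΩ.preimage hφ) (by
        rintro ⟨x, g⟩ ⟨hx, hg⟩
        apply h
        intro i
        refine Fin.cases ?_ (fun j => ?_) i
        · exact hx
        · exact hg j)
    obtain ⟨U, hU, hCU, hUΩ⟩ := t6_tube p (fun i => C i.succ) (fun i => hC i.succ) v hv
      (fun g hg => hTv hg)
    refine ⟨Fin.cons u U, ?_, ?_, ?_⟩
    · intro i
      refine Fin.cases ?_ (fun j => ?_) i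
      · exact hu
      · exact hU j
    · intro i
      refine Fin.cases ?_ (fun j => ?_) i
      · exact hCu
      · exact hCU j
    · intro g hg
      have h1 : (g 0, Fin.tail g) ∈ u ×ˢ v :=
        ⟨by simpa using hg 0, hUΩ _ fun j => by
        have := hg j.succ
        rwa [Fin.cons_succ] at this⟩
      have h2 := huv h1
      have h3 : (Fin.cons (g 0) (Fin.tail g) : Fin (p + 1) → X) ∈ Ω := h2
      rwa [Fin.cons_self_tail] at h3

/-- enlarging a compact box inside the next compact set -/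
lemma t6_step {X : Type} [TopologicalSpace X] [T2Space X] (p : ℕ) (K : Set X) (hK : IsCompact K)
    (W : Set (Fin p → X)) (hW : ∃ Ω : Set (Fin p → X), IsOpen Ω ∧
      ∀ g : Fin p → X, (∀ i, g i ∈ K) → (g ∈ Ω ↔ g ∈ W)) (C : Fin p → Set X)
    (hC : ∀ i, IsCompact (C i)) (hCK : ∀ i, C i ⊆ K)
    (hCW : ∀ g : Fin p → X, (∀ i, g i ∈ C i) → g ∈ W) :
    ∃ C' : Fin p → Set X, (∀ i, IsCompact (C' i)) ∧ (∀ i, C' i ⊆ K) ∧
      (∀ g : Fin p → X, (∀ i, g i ∈ C' i) → g ∈ W) ∧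
      ∀ i, ∃ O : Set X, IsOpen O ∧ C i ⊆ O ∧ O ∩ K ⊆ C' i := by
  obtain ⟨Ω, hΩ, hΩW⟩ := hW
  obtain ⟨U, hU, hCU, hUΩ⟩ := t6_tube p C hC Ω hΩ
    (fun g hg => (hΩW g fun i => hCK i (hg i)).2 (hCW g hg))
  have hsep : ∀ i, ∃ O P : Set X, IsOpen O ∧ IsOpen P ∧ C i ⊆ O ∧ K \ U i ⊆ P ∧ Disjoint O P := by
    intro i
    have hd : Disjoint (C i) (K \ U i) := by
      rw [Set.disjoint_left]
      intro x hx hx'
      exact hx'.2 (hCU i hx)
    exact SeparatedNhds.of_isCompact_isCompact (hC i) (hK.diff (hU i)) hd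
  choose O P hO hP hCO hKP hOP using hsep
  refine ⟨fun i => K \ P i, fun i => hK.diff (hP i), fun i => Set.sdiff_subset, ?_, fun i =>
    ⟨O i, hO i, hCO i, ?_⟩⟩
  · intro g hg
    refine (hΩW g fun i => (hg i).1).1 (hUΩ g fun i => ?_)
    by_contra hcon
    exact (hg i).2 (hKP i ⟨(hg i).1, hcon⟩)
  · rintro x ⟨hx, hxK⟩
    exact ⟨hxK, fun hxP => (Set.disjoint_left.1 (hOP i)) hx hxP⟩

theorem st_T6 : ST_T6 := by
  intro X _ _ K hK hKm hKu hcoh p f hf
  have hmono : Monotone K := monotone_nat_of_le_succ hKm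
  rw [continuous_iff_continuousAt]
  intro g0
  rw [Metric.continuousAt_iff']
  intro ε hε
  obtain ⟨m0, hm0⟩ : ∃ m0, ∀ i, g0 i ∈ K m0 := by
    have h1 : ∀ i, ∃ n, g0 i ∈ K n := fun i => by
      have : g0 i ∈ ⋃ n, K n := by rw [hKu]; trivial
      exact Set.mem_iUnion.1 this
    choose n hn using h1
    exact ⟨Finset.univ.sup n, fun i => hmono (Finset.le_sup (Finset.mem_univ i)) (hn i)⟩
  set W : Set (Fin p → X) := {g | dist (f g) (f g0) < ε} with hWdef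
  have hWK : ∀ n, ∃ Ω : Set (Fin p → X), IsOpen Ω ∧
      ∀ g : Fin p → X, (∀ i, g i ∈ K n) → (g ∈ Ω ↔ g ∈ W) := by
    intro n
    have h1 := (continuousOn_iff'.1 (hf n)) (Metric.ball (f g0) ε) Metric.isOpen_ball
    obtain ⟨Ω, hΩ, he⟩ := h1
    refine ⟨Ω, hΩ, fun g hg => ?_⟩
    have h2 : g ∈ f ⁻¹' Metric.ball (f g0) ε ∩ {g | ∀ i, g i ∈ K n} ↔
        g ∈ Ω ∩ {g | ∀ i, g i ∈ K n} := by rw [he]
    constructor
    · intro h
      exact (h2.2 ⟨h, hg⟩).1
    · intro h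
      exact (h2.1 ⟨h, hg⟩).1
  let Pr : ℕ → (Fin p → Set X) → Prop := fun m C => (∀ i, IsCompact (C i)) ∧
    (∀ i, C i ⊆ K (m0 + m)) ∧ ∀ g : Fin p → X, (∀ i, g i ∈ C i) → g ∈ W
  have hstep : ∀ m (C : Fin p → Set X), Pr m C → ∃ C' : Fin p → Set X, Pr (m + 1) C' ∧
      ∀ i, ∃ O : Set X, IsOpen O ∧ C i ⊆ O ∧ O ∩ K (m0 + (m + 1)) ⊆ C' i := by
    rintro m C ⟨h1, h2, h3⟩
    obtain ⟨C', h4, h5, h6, h7⟩ := t6_step p (K (m0 + (m + 1))) (hK _) W (hWK _) C h1
      (fun i => (h2 i).trans (hmono (by omega))) h3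
    exact ⟨C', ⟨h4, h5, h6⟩, h7⟩
  choose nxt hnxt1 hnxt2 using hstep
  have h0 : Pr 0 (fun i => {g0 i}) := by
    refine ⟨fun i => isCompact_singleton, fun i => by simpa using hm0 i, fun g hg => ?_⟩
    have : g = g0 := funext fun i => hg i
    rw [this]
    show dist (f g0) (f g0) < ε
    simpa using hε
  let s : ∀ m : ℕ, {C : Fin p → Set X // Pr m C} := fun m =>
    Nat.rec (motive := fun m => {C : Fin p → Set X // Pr m C}) ⟨fun i => {g0 i}, h0⟩
      (fun m C => ⟨nxt m C.1 C.2, hnxt1 m C.1 C.2⟩) m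
  have hs : ∀ m i, ∃ O : Set X, IsOpen O ∧ (s m).1 i ⊆ O ∧
      O ∩ K (m0 + (m + 1)) ⊆ (s (m + 1)).1 i := fun m i => hnxt2 m (s m).1 (s m).2 i
  choose O hO hsO hOs using hs
  have hinc1 : ∀ m i, (s m).1 i ⊆ (s (m + 1)).1 i := fun m i x hx =>
    hOs m i ⟨hsO m i hx, hmono (by omega) ((s m).2.2.1 i hx)⟩
  have hinc : ∀ i, Monotone fun m => (s m).1 i := fun i =>
    monotone_nat_of_le_succ fun m => hinc1 m i
  let V : Fin p → Set X := fun i => ⋃ m, (s m).1 i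
  have hVopen : ∀ i, IsOpen (V i) := by
    intro i
    apply hcoh
    intro n
    refine ⟨⋃ m ≥ n, O m i, isOpen_biUnion fun m _ => hO m i, ?_⟩
    ext x
    constructor
    · rintro ⟨hx, hxK⟩
      obtain ⟨m, hm⟩ := Set.mem_iUnion.1 hx
      refine ⟨?_, hxK⟩
      rw [Set.mem_iUnion₂]
      exact ⟨max m n, le_max_right _ _, hsO _ i (hinc i (le_max_left m n) hm)⟩
    · rintro ⟨hx, hxK⟩
      obtain ⟨m, hm, hxO⟩ := Set.mem_iUnion₂.1 hx
      refine ⟨Set.mem_iUnion.2 ⟨m + 1, hOs m i ⟨hxO, hmono ?_ hxK⟩⟩, hxK⟩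
      have : n ≤ m := hm
      omega
  have hbox : {g : Fin p → X | ∀ i, g i ∈ V i} ∈ nhds g0 := by
    have hopen : IsOpen {g : Fin p → X | ∀ i, g i ∈ V i} := by
      have : {g : Fin p → X | ∀ i, g i ∈ V i} = Set.univ.pi V := by
        ext g
        simp [Set.mem_pi]
      rw [this]
      exact isOpen_set_pi Set.finite_univ fun i _ => hVopen i
    refine hopen.mem_nhds fun i => Set.mem_iUnion.2 ⟨0, ?_⟩
    show g0 i ∈ ({g0 i} : Set X)
    exact Set.mem_singleton _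
  filter_upwards [hbox] with g hg
  have h1 : ∀ i, ∃ m, g i ∈ (s m).1 i := fun i => Set.mem_iUnion.1 (hg i)
  choose n hn using h1
  have h2 : ∀ i, g i ∈ (s (Finset.univ.sup n)).1 i := fun i =>
    hinc i (Finset.le_sup (Finset.mem_univ i)) (hn i)
  exact (s (Finset.univ.sup n)).2.2.2 g h2

end

end Pool.Agent.Helper67.DO
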