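import Pool.Agent.Helper67.DO.StmtsT

/-!
# Module T9: the Euler cocycle and the Godbillon-Vey cocycle are continuous cocycles
-/

namespace Pool.Agent.Helper67.DO

open scoped BigOperators Real

noncomputable section

/-- a mixed cochain with `c_0 = E` gives a level cochain `E` and the cocycle identity -/
lemma t9_LC (h2 : ST_D2) {n m : ℕ} (hn : 1 ≤ n) (E : Sq → ℂ)
    (hdep : ∀ y y' : Sq, (∀ k ≤ 2 * m, y k = y' k) → E y = E y')
    (h : ∃ c, MC n (2 * m) c ∧ ∀ y v : Sq, (∀ k, y k ∈ AA n) → c 0 y v = E y) :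
    LC n (2 * m) E ∧ ∀ y : Sq, (∀ k, y k ∈ AA n) → dlt (2 * m) E y = 0 := by
  obtain ⟨c, hc, hcE⟩ := h
  obtain ⟨-, -, -, hid, htr, -, -, -⟩ := h2
  have hidn : (fun x : ℝ => x + 0) ∈ AA n := hid n hn 0
  have hzero : ∀ K : ℝ, 0 ≤ K → (fun _ : ℝ => (0 : ℝ)) ∈ VV n K := by
    intro K hK
    refine ⟨⟨_, hidn, _, hidn, ?_⟩, fun x => by simpa using hK⟩
    funext x
    ring
  set v0 : Sq := fun _ _ => 0 with hv0
  have hv0m : ∀ b, v0 b ∈ VV n 1 := fun b => hzero 1 zero_le_one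
  refine ⟨⟨hdep, ?_, ?_, ?_⟩, ?_⟩
  · intro ε hε
    obtain ⟨δ, hδ, hu⟩ := hc.uc 0 (Nat.zero_le _) 1 ε hε
    refine ⟨δ, hδ, fun y y' hy hy' hd => ?_⟩
    have := hu y y' v0 v0 hy hy' hv0m hv0m hd (fun b hb => absurd hb (Nat.not_lt_zero b))
    rwa [hcE y v0 hy, hcE y' v0 hy'] at this
  · intro y t hy
    have h1 := hc.tinv 0 (Nat.zero_le _) y v0 (fun k => (t k : ℝ)) (fun _ => 0) 1 hy hv0m
    have hy' : ∀ k, (fun x => y k x + (t k : ℝ)) ∈ AA n := fun k => (htr n hn (y k) (hy k) (t k)).1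
    rwa [hcE _ _ hy', hcE _ _ hy] at h1
  · intro y g hg hy hy'
    have h1 := hc.rinv 0 (Nat.zero_le _) y v0 g 1 hg hy hv0m hy' hv0m
    rwa [hcE _ _ hy', hcE _ _ hy] at h1
  · intro y hy
    have h1 := hc.m2 0 (Nat.zero_le _) y v0 1 hy hv0m
    have hrm : ∀ i k, rm i y k ∈ AA n := by
      intro i k
      unfold rm
      split_ifs
      · exact hy _
      · exact hy _
    have h3 : Finset.Icc 0 (2 * m + 1) = Finset.range (2 * m + 2) := by
      ext i
      simp [Finset.mem_Icc, Finset.mem_range, Nat.lt_succ_iff]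
    rw [h3] at h1
    unfold dlt
    rw [← h1]
    exact Finset.sum_congr rfl fun i _ => by rw [hcE _ _ (hrm i)]

/-- the transfer to the inhomogeneous side -/
lemma t9_main (h1 : ST_T1) (h2 : ST_D2) (h3 : ∀ (p : ℕ) (c : (Fin p → DiffOmega) → ℝ) (y : Sq),
      (∀ k, IsLift (y k)) → dlt p (Cc p c) y = ((cobd p c (prQ (p + 1) y) : ℝ) : ℂ))
    (h5 : ST_T5) (h7 : ST_T7) (h8 : ST_T8) (m : ℕ) (κ : (Fin (2 * m) → DiffOmega) → ℝ)
    (E : Sq → ℂ) (hE : ∀ y : Sq, (∀ k, IsLift (y k)) → ((κ (prQ (2 * m) y) : ℝ) : ℂ) = E y)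
    (hLC : ∀ n : ℕ, 1 ≤ n → LC n (2 * m) E ∧ ∀ y : Sq, (∀ k, y k ∈ AA n) →
      dlt (2 * m) E y = 0) :
    Continuous κ ∧ cobd (2 * m) κ = 0 := by
  constructor
  · apply h7.1
    intro n hn
    obtain ⟨b, hb, hbE⟩ := h8.2 n (2 * m) E hn (hLC n hn).1
    refine hb.congr ?_
    rintro g ⟨y, hy, rfl⟩
    rw [hbE y hy, ← hE y fun k => (hy k).1, Complex.ofReal_re]
  · funext g
    -- all entries have lifts in a common level
    obtain ⟨hmono, hex, -, -, -, -, -, -⟩ := h2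
    have hg : ∀ i, ∃ n : ℕ, 1 ≤ n ∧ lft (g i) ∈ AA n := by
      intro i
      exact hex _ (exists_liftG (g i)).choose_spec.1
    choose n hn hnA using hg
    set M := Finset.univ.sup n + 1 with hM
    have hM1 : 1 ≤ M := by omega
    have hgM : ∀ i, g i ∈ cls '' (AA M) := by
      intro i
      refine ⟨lft (g i), hmono (n i) M (hn i) ?_ (hnA i), h1.2.2.2.2.2 (g i)⟩
      have : n i ≤ Finset.univ.sup n := Finset.le_sup (Finset.mem_univ i)
      omega
    obtain ⟨m', hm', hEE⟩ := h5.2.2.2.2.1 M (2 * m + 1) hM1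
    obtain ⟨y, hy, hgy⟩ := hEE g hgM
    have h6 := h3 (2 * m) κ y fun k => (hy k).1
    have h9 : dlt (2 * m) (Cc (2 * m) κ) y = dlt (2 * m) E y := by
      unfold dlt
      refine Finset.sum_congr rfl fun i _ => ?_
      have hrm : ∀ k, IsLift (rm i y k) := by
        intro k
        unfold rm
        split_ifs
        · exact (hy _).1
        · exact (hy _).1
      rw [← hE _ hrm]
      rfl
    rw [h9, (hLC m' (by omega)).2 y hy, ← hgy] at h6
    have : cobd (2 * m) κ g = 0 := by exact_mod_cast h6.symm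
    simpa using this

theorem st_T9 (h1 : ST_T1) (h3 : ST_T3) (h5 : ST_T5) (h7 : ST_T7) (h8 : ST_T8) (h2 : ST_D2)
    (h15 : ST_D15) (h16 : ST_D16) : ST_T9 := by
  have he : ∀ m, Continuous (cupPow eul m) ∧ cobd (2 * m) (cupPow eul m) = 0 := by
    intro m
    refine t9_main h1 h2 h3.1 h5 h7 h8 m (cupPow eul m) (ePow m) (h3.2.2.2.1 m) ?_
    intro n hn
    obtain ⟨c, hc, hc0, -⟩ := h15 n m hn
    refine t9_LC h2 hn (ePow m) ?_ ⟨c, hc, hc0⟩
    intro y y' hyy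
    unfold ePow
    refine Finset.prod_congr rfl fun i hi => ?_
    have := Finset.mem_range.1 hi
    rw [hyy (2 * i) (by omega), hyy (2 * i + 1) (by omega), hyy (2 * i + 2) (by omega)]
  have hg : ∀ m, Continuous (cupPow gvc m) ∧ cobd (2 * m) (cupPow gvc m) = 0 := by
    intro m
    refine t9_main h1 h2 h3.1 h5 h7 h8 m (cupPow gvc m) (gvPow m) (h3.2.2.2.2.1 m) ?_
    intro n hn
    obtain ⟨c, hc, hc0, -⟩ := h16 n m hn
    refine t9_LC h2 hn (gvPow m) ?_ ⟨c, hc, hc0⟩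
    intro y y' hyy
    unfold gvPow
    refine Finset.prod_congr rfl fun i hi => ?_
    have := Finset.mem_range.1 hi
    rw [hyy (2 * i) (by omega), hyy (2 * i + 1) (by omega), hyy (2 * i + 2) (by omega)]
  have hcup : ∀ κ : DiffOmega → DiffOmega → ℝ, two κ = cupPow κ 1 := by
    intro κ
    funext g
    unfold two cupPow
    rw [Fin.prod_univ_one]
    rfl
  refine ⟨?_, ?_, ?_, ?_, fun m => (he m).1, fun m => (hg m).1, fun m => (he m).2,
    fun m => (hg m).2⟩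
  · rw [hcup]; exact (he 1).1
  · rw [hcup]; exact (hg 1).1
  · rw [hcup]; exact (he 1).2
  · rw [hcup]; exact (hg 1).2

end

end Pool.Agent.Helper67.DO
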